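import Pool.Agent.H.MP_e5edb0_lc.Defs

namespace Pool.Agent.H.MP_e5edb0_lc

open Finset

variable {V : Type} [Fintype V] [DecidableEq V]

def Dom (N : V → V → Prop) (D : Finset V) : Prop := ∀ v, ∃ d ∈ D, N v d
def Mds (N : V → V → Prop) (D : Finset V) : Prop := Dom N D ∧ ∀ d ∈ D, ¬ Dom N (D.erase d)
def Ind (N : V → V → Prop) (I : Finset V) : Prop := ∀ x ∈ I, ∀ y ∈ I, N x y → x = y
def Sub (N : V → V → Prop) (x y : V) : Prop := ∀ z, N x z → N y z
def Cen (N : V → V → Prop) (c : V) : Prop := ∀ x, Sub N x c → Sub N c x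
def Lam (N : V → V → Prop) (c : V) : Prop := Cen N c ∧ ∃ a b, N c a ∧ N c b ∧ ¬ N a b
def Blk (N : V → V → Prop) (c c' : V) : Prop := ¬ N c c' ∧ ∀ x, N c x ∨ x = c' →
  (∀ y, N c y ∨ y = c' → N x y) ∨ ∃ x', (N c x' ∨ x' = c') ∧ ∀ y, N x y ↔ (N c y ∨ y = c') ∧ y ≠ x'
def ML (N : V → V → Prop) : Prop := ∀ c, Lam N c → ∃ c', Blk N c c'
def L3 (N : V → V → Prop) : Prop := ∀ a b c, Cen N c → N c a → N c b → ¬ Lam N a → ¬ Lam N b →
  (∀ z, Cen N z → N z a → N z b) ∨ ∀ z, Cen N z → N z b → N z a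

structure RS (N : V → V → Prop) : Prop where
  rf : ∀ x, N x x
  sy : ∀ {x y}, N x y → N y x

structure Eqd (N : V → V → Prop) (w : V → ℕ) (t : ℕ) : Prop extends RS N where
  pos : ∀ x, 0 < w x
  eq : ∀ D, Mds N D ↔ ∑ v ∈ D, w v = t

variable {N : V → V → Prop} {w : V → ℕ} {t : ℕ} {D X I : Finset V} {a b c x y z : V}

theorem Dom.mds (h : Dom N X) : ∃ D ⊆ X, Mds N D := by
  induction X using Finset.strongInduction with
  | H X ih =>
    by_cases k : ∀ d ∈ X, ¬ Dom N (X.erase d)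
    · exact ⟨X, Subset.rfl, h, k⟩
    push Not at k
    obtain ⟨d, e, f⟩ := k
    obtain ⟨D, i, j⟩ := ih _ (erase_ssubset e) f
    exact ⟨D, i.trans (erase_subset _ _), j⟩

theorem Eqd.ge (E : Eqd N w t) (h : Dom N X) : t ≤ ∑ v ∈ X, w v := by
  obtain ⟨D, i, j⟩ := h.mds
  exact ((E.eq D).1 j).ge.trans (sum_le_sum_of_subset i)

theorem Ind.mds (i : Ind N I) (h : Dom N I) : Mds N I := ⟨h, fun d e f => by
  obtain ⟨x, k, l⟩ := f d
  rw [mem_erase] at k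
  exact k.1 (i d e x k.2 l).symm⟩

theorem Mds.red (h : Mds N D) (e : x ∈ D) (k : ∀ v, N v x → ∃ d ∈ D, d ≠ x ∧ N v d) : False :=
  h.2 x e fun v => by
    obtain ⟨d, i, j⟩ := h.1 v
    by_cases l : d = x
    · obtain ⟨d, i, j, m⟩ := k v (l ▸ j); exact ⟨d, mem_erase.2 ⟨j, i⟩, m⟩
    · exact ⟨d, mem_erase.2 ⟨l, i⟩, j⟩

theorem RS.ext (E : RS N) (i : Ind N I) (X : V → Prop) :
    ∃ J, (∀ j ∈ J, X j) ∧ Disjoint I J ∧ Ind N (I ∪ J) ∧ ∀ x, X x → ∃ d ∈ I ∪ J, N x d := by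
  classical
  obtain ⟨J, h, m⟩ := exists_max_image (univ.filter fun J : Finset V => (∀ j ∈ J, X j) ∧ Disjoint I J ∧ Ind N (I ∪ J))
    card ⟨∅, by simpa using i⟩
  simp only [mem_filter, mem_univ, true_and] at h m
  refine ⟨J, h.1, h.2.1, h.2.2, fun x e => by_contra fun f => ?_⟩
  push Not at f
  have g : x ∉ I ∪ J := fun g => f x g (E.rf x)
  have := m (insert x J) ⟨by simpa [e] using h.1, by simp_all, fun p u q v r => ?_⟩
  · rw [card_insert_of_notMem (by simp_all)] at this; omega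
  rw [union_insert, mem_insert] at u v
  obtain rfl | u := u <;> obtain rfl | v := v
  exacts [rfl, (f q v r).elim, (f p u (E.sy r)).elim, h.2.2 p u q v r]

theorem RS.mis (E : RS N) (i : Ind N I) : ∃ D, I ⊆ D ∧ Ind N D ∧ Mds N D := by
  obtain ⟨J, -, -, k, l⟩ := E.ext i fun _ => True
  exact ⟨_, subset_union_left, k, k.mds fun v => l v trivial⟩

theorem Eqd.swap (E : Eqd N w t) (h : Mds N D) {A B} (i : A ⊆ D) (j : Disjoint D B)
    (k : ∑ v ∈ A, w v = ∑ v ∈ B, w v) : Mds N (D \ A ∪ B) := by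
  rw [E.eq] at h ⊢
  rw [sum_union (j.mono_left sdiff_subset), ← k, sum_sdiff i, h]

theorem Eqd.swap1 (E : Eqd N w t) (h : Mds N D) (i : x ∈ D) (j : y ∉ D) (k : w x = w y) :
    Mds N (insert y (D.erase x)) := by
  rw [E.eq] at h ⊢
  rw [sum_insert (by simp [j]), ← k, add_sum_erase _ _ i, h]

theorem Eqd.le1 (E : Eqd N w t) (h : Mds N D) (i : x ∈ D) (k : Dom N (insert y (D.erase x))) : w x ≤ w y := by
  have := E.ge k
  rw [E.eq, ← add_sum_erase _ _ i] at h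
  by_cases j : y ∈ D.erase x
  · rw [insert_eq_of_mem j] at this; have := E.pos x; omega
  · rw [sum_insert j] at this; omega

theorem RS.pair (E : RS N) (h : ¬ N x y) : Ind N {x, y} := by
  simp only [Ind, mem_insert, mem_singleton]
  rintro _ (rfl | rfl) _ (rfl | rfl) k
  exacts [rfl, (h k).elim, (h (E.sy k)).elim, rfl]

theorem RS.ins (E : RS N) (i : Ind N I) (h : ∀ y ∈ I, ¬ N x y) : Ind N (insert x I) := by
  simp only [Ind, mem_insert]
  rintro p (rfl | u) q (rfl | v) k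
  exacts [rfl, (h q v k).elim, (h p u (E.sy k)).elim, i p u q v k]

theorem Eqd.twin (E : Eqd N w t) (h : w x = w y) (k : ¬ N x y) (l : N x z) (m : z ≠ x) : N y z := by
  by_contra n
  obtain ⟨D, i, j, o⟩ := E.mis (E.pair n)
  have hy : y ∈ D := i (by simp)
  obtain ⟨d, p, q⟩ := (E.swap1 o hy (fun e => m (j x e z (i (by simp)) l).symm) h.symm).1 y
  rw [mem_insert, mem_erase] at p
  obtain rfl | p := p
  exacts [k (E.sy q), p.1 (j y hy d p.2 q).symm]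

theorem Eqd.f4 (E : Eqd N w t) (h : Mds N D) (hx : x ∈ D) (hy : y ∈ D) (hc : c ∈ D) (e : w x = w y) (k : ¬ N x y)
    (l : N x c) (m : c ≠ x) : False :=
  h.red hx fun v n => if o : v = x then ⟨c, hc, m, o ▸ l⟩ else
    ⟨y, hy, fun p => k (p ▸ E.rf _), E.sy (E.twin e k (E.sy n) o)⟩

theorem Eqd.three (E : Eqd N w t) (h1 : ¬ N x y) (h2 : ¬ N z x) (h3 : ¬ N z y) (e1 : w x = w y) (e2 : w z = w a)
    (l : N x a) (m : a ≠ x) : False := by
  obtain ⟨D, i, j, o⟩ := E.mis (E.ins (E.pair h1) (x := z) (by simp [h2, h3]))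
  have hx : x ∈ D := i (by simp)
  refine E.f4 (E.swap1 o (i (mem_insert_self _ _)) (fun e => m (j x hx a e l).symm) e2) ?_ ?_ (mem_insert_self _ _) e1 h1 l m
  · exact mem_insert_of_mem (mem_erase.2 ⟨fun e => h2 (e ▸ E.rf _), hx⟩)
  · exact mem_insert_of_mem (mem_erase.2 ⟨fun e => h3 (e ▸ E.rf _), i (by simp)⟩)

theorem Eqd.tw_le (E : Eqd N w t) (h : ¬ N x y) (k : ∀ v, N y v → v ≠ y → N x v) (l : N y z) : w y ≤ w z := by
  obtain ⟨D, i, j, o⟩ := E.mis (E.pair h)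
  refine E.le1 o (i (by simp)) fun v => ?_
  obtain ⟨d, p, q⟩ := o.1 v
  by_cases r : d = y
  · by_cases s : v = y
    · exact ⟨z, by simp, s ▸ l⟩
    · exact ⟨x, mem_insert_of_mem (mem_erase.2 ⟨fun e => h (e ▸ E.rf _), i (by simp)⟩), E.sy (k v (E.sy (r ▸ q)) s)⟩
  · exact ⟨d, by simp [r, p], q⟩

theorem cen_ex (N : V → V → Prop) (v : V) : ∃ z, Cen N z ∧ Sub N z v := by
  obtain ⟨z, h, k⟩ := Set.Finite.exists_minimalFor (fun z => {y | N z y}) {z | Sub N z v} (Set.toFinite _)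
    ⟨v, fun _ h => h⟩
  exact ⟨z, fun x e => k (fun y f => h y (e y f)) e, h⟩

theorem dom_cen (h : ∀ z, Cen N z → ∃ d ∈ D, N z d) : Dom N D := fun v => by
  obtain ⟨z, i, j⟩ := cen_ex N v
  exact (h z i).imp fun d => .imp_right (j d)

theorem Blk.tr {c' x'} (h : Blk N c c') (i : N c x' ∨ x' = c') (k : ∀ y, N x y ↔ (N c y ∨ y = c') ∧ y ≠ x') :
    Blk N x x' ∧ ∀ y, N x y ∨ y = x' ↔ N c y ∨ y = c' := by
  have : ∀ y, N x y ∨ y = x' ↔ N c y ∨ y = c' := fun y => by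
    rw [k]; by_cases e : y = x' <;> simp [e, i]
  exact ⟨⟨by simp [k], by simpa only [this] using h.2⟩, this⟩

theorem Blk.lam {c' x'} (E : RS N) (h : Blk N c c') (l : Lam N c) (i : N c x' ∨ x' = c')
    (k : ∀ y, N x y ↔ (N c y ∨ y = c') ∧ y ≠ x') : Lam N x := by
  refine ⟨fun p e => ?_, ?_⟩
  · have n : ¬ N p x' := fun f => by simpa [k] using e _ f
    obtain f | ⟨p', -, f⟩ := h.2 p ((k p).1 (e p (E.rf p))).1
    · exact (n (f _ i)).elim
    · obtain rfl : x' = p' := by simpa [f, i] using n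
      exact fun y g => (f y).2 ((k y).1 g)
  obtain ⟨a, b, p, q, r⟩ := l.2
  by_cases e : c = x' ∨ c' = x'
  · refine ⟨a, b, (k _).2 ⟨.inl p, ?_⟩, (k _).2 ⟨.inl q, ?_⟩, r⟩ <;> rintro rfl <;> obtain rfl | rfl := e
    exacts [r q, h.1 p, r (E.sy p), h.1 q]
  · exact ⟨c, c', (k _).2 ⟨.inl (E.rf c), fun f => e (.inl f)⟩, (k _).2 ⟨.inr rfl, fun f => e (.inr f)⟩, h.1⟩

theorem Blk.snd {c'} (E : RS N) (h : Blk N c c') (y) : N c' y ↔ (N c y ∨ y = c') ∧ y ≠ c := by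
  have n : ¬ N c' c := fun e => h.1 (E.sy e)
  obtain f | ⟨p, -, f⟩ := h.2 c' (.inr rfl)
  · exact (n (f c (.inl (E.rf c)))).elim
  · obtain rfl : c = p := by simpa [f, E.rf] using n
    exact f y

theorem Cen.lam_of (h : Cen N c) (k : N c x) (l : Lam N x) : Lam N c := by
  refine ⟨h, by_contra fun n => ?_⟩
  push Not at n
  obtain ⟨a, b, p, q, r⟩ := l.2
  have := l.1 c fun y => n x y k
  exact r (n a b (this a p) (this b q))

theorem ML.k1 (E : RS N) (M : ML N) (h : Cen N c) (k : N c x) (l : ¬ Lam N x) : Sub N c x := by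
  by_cases n : Lam N c
  · obtain ⟨c', B⟩ := M c n
    obtain f | ⟨p, i, f⟩ := B.2 x (.inl k)
    exacts [fun y e => f y (.inl e), (l (B.lam E n i f)).elim]
  · exact fun y e => by_contra fun f => n ⟨h, x, y, k, e, f⟩

theorem Blk.two {c'} (h : Blk N c c') (l : Cen N x) (i : N c x ∨ x = c') :
    ∃ x', (N c x' ∨ x' = c') ∧ ∀ y, N x y ↔ (N c y ∨ y = c') ∧ y ≠ x' :=
  (h.2 x i).resolve_left fun f => h.1 (l c (fun y e => f y (.inl e)) _ (f _ (.inr rfl)))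

theorem Blk.opp {c'} (h : Blk N c c') (p : N c a ∨ a = c') (q : N c b ∨ b = c') (r : ¬ N a b) (y) :
    N a y ↔ (N c y ∨ y = c') ∧ y ≠ b := by
  obtain f | ⟨x, -, f⟩ := h.2 a p
  · exact (r (f b q)).elim
  · obtain rfl : b = x := by simpa [f, q] using r
    exact f y

theorem Blk.eq {c'} (E : Eqd N w t) (h : Blk N c c') (l : Lam N c) : w c = w c' := by
  obtain ⟨a, b, p, q, r⟩ := l.2
  have s := h.snd E.toRS
  have u := h.opp (.inl p) (.inl q) r
  have v := h.opp (.inl q) (.inl p) fun e => r (E.sy e)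
  have n : a ≠ c := fun e => r (e ▸ q)
  have h1 : w c' ≤ w a := E.tw_le h.1 (fun y e f => ((s y).1 e).1.resolve_right f) ((s a).2 ⟨.inl p, n⟩)
  have h2 : w c ≤ w a := E.tw_le (fun e => h.1 (E.sy e)) (fun y e f => (s y).2 ⟨.inl e, f⟩) p
  have h3 : ∀ z, N a z → w a ≤ w z := fun z =>
    E.tw_le (fun e => r (E.sy e)) fun y e f => (v y).2 ⟨((u y).1 e).1, f⟩
  have := h3 c (E.sy p)
  have := h3 c' (E.sy ((s a).2 ⟨.inl p, n⟩))
  omega

end Pool.Agent.H.MP_e5edb0_lc
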