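import Pool.Agent.H.MP_e5edb0_lc.A

namespace Pool.Agent.H.MP_e5edb0_lc

open Finset

variable {V : Type} [Fintype V] [DecidableEq V] {N : V → V → Prop} {w : V → ℕ} {t : ℕ} {D X I S : Finset V}
  {a b c x y z q : V} {K : V → Prop}

theorem Eqd.f3 (E : Eqd N w t) (hI : ∀ x y, Sub N x y → x = y) (e : w c = w q) (h : N c q) (i : N c a) (j : ¬ N a q) :
    ∃ y, N y q ∧ ¬ N y c ∧ ∀ v, N y v → N a v ∨ v = q := by
  classical
  by_contra n
  push Not at n
  obtain ⟨D, k, l⟩ := Dom.mds (N := N) (X := univ.filter fun v => v = c ∨ ¬ N a v ∧ v ≠ q) fun v => by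
    by_cases o : N v c
    · exact ⟨c, by simp, o⟩
    by_cases p : N v q
    · obtain ⟨u, r, s⟩ := n v p o; exact ⟨u, by simp [s], r⟩
    by_contra r
    push Not at r
    obtain rfl := hI v a fun u s => by_contra fun m => r u (by simp [m, show u ≠ q from fun m => p (m ▸ s)]) s
    exact o (E.sy i)
  have m : ∀ d ∈ D, d = c ∨ ¬ N a d ∧ d ≠ q := fun d f => by simpa using k f
  obtain ⟨d, f, g⟩ := l.1 a
  obtain rfl := (m d f).resolve_right fun r => r.1 g
  obtain ⟨d', f', g'⟩ := (E.swap1 l f (fun r => (m q r).elim (fun s => j (s ▸ g)) fun s => s.2 rfl) e).1 a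
  rw [mem_insert, mem_erase] at f'
  obtain rfl | f' := f'
  exacts [j g', (m d' f'.2).elim f'.1 fun r => r.1 g']

structure Mx (N : V → V → Prop) (c a b : V) (S : Finset V) : Prop where
  ca : N c a
  cb : N c b
  ab : ¬ N a b
  i : Ind N S
  s : ∀ s ∈ S, ¬ N c s ∧ ¬ N a s ∧ ¬ N b s
  mx : ∀ a b u, N c a → N c b → ¬ N a b → (∀ s ∈ S, ¬ N a s ∧ ¬ N b s) → ¬ N c u → (∀ s ∈ S, ¬ N u s) → N a u ∨ N b u

theorem RS.mx (E : RS N) (h : N c a) (k : N c b) (l : ¬ N a b) : ∃ a b S, Mx N c a b S := by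
  classical
  obtain ⟨⟨a, b, S⟩, h, m⟩ := exists_max_image (univ.filter fun p : V × V × Finset V => N c p.1 ∧ N c p.2.1 ∧
    ¬ N p.1 p.2.1 ∧ Ind N p.2.2 ∧ ∀ s ∈ p.2.2, ¬ N c s ∧ ¬ N p.1 s ∧ ¬ N p.2.1 s) (·.2.2.card)
    ⟨(a, b, ∅), by simp [h, k, l, Ind]⟩
  simp only [mem_filter, mem_univ, true_and] at h m
  refine ⟨a, b, S, h.1, h.2.1, h.2.2.1, h.2.2.2.1, h.2.2.2.2, fun a b u p q r s v x => by_contra fun n => ?_⟩
  push Not at n
  have := m (a, b, insert u S) ⟨p, q, r, E.ins h.2.2.2.1 x, forall_mem_insert .. |>.2 ⟨⟨v, n⟩,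
    fun y e => ⟨(h.2.2.2.2 y e).1, s y e⟩⟩⟩
  rw [card_insert_of_notMem fun e => x u e (E.rf u)] at this
  simp at this

theorem Mx.symm (E : RS N) (M : Mx N c a b S) : Mx N c b a S :=
  ⟨M.cb, M.ca, fun e => M.ab (E.sy e), M.i, fun s e => ⟨(M.s s e).1, (M.s s e).2.symm⟩, M.mx⟩

theorem Mx.ind (E : RS N) (M : Mx N c a b S) : Ind N (insert a (insert b S)) :=
  E.ins (E.ins M.i fun s e => (M.s s e).2.2) (forall_mem_insert .. |>.2 ⟨M.ab, fun s e => (M.s s e).2.1⟩)

theorem Mx.sum (E : Eqd N w t) (hK : ∀ x y, K x → N x y → K y) (kc : K c) (mn : ∀ x, K x → w c ≤ w x)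
    (M : Mx N c a b S) : w a + (w b + ∑ v ∈ S, w v) = t := by
  have ne : ∀ {x y}, ¬ N x y → x ≠ y := fun h e => h (e ▸ E.rf _)
  rw [← sum_insert fun e => (M.s b e).2.2 (E.rf b), ← sum_insert (by
    simpa [ne M.ab] using fun e => (M.s a e).2.1 (E.rf a)), ← E.eq]
  refine (M.ind E.toRS).mds fun v => by_contra fun n => ?_
  simp only [mem_insert, not_exists, not_and, forall_eq_or_imp] at n
  have cv : N c v := by_contra fun e => (M.mx a b v M.ca M.cb M.ab (fun s e => (M.s s e).2) e n.2.2).elim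
    (fun e => n.1 (E.sy e)) fun e => n.2.1 (E.sy e)
  obtain ⟨D, i, j, k⟩ := E.mis (E.ins (M.ind E.toRS) (x := v) (by simpa using n))
  have z : ∀ x p q, N c x → N c p → N c q → p ∈ D → q ∈ D → ¬ N p q → ¬ N p x → ¬ N q x →
      (∀ s ∈ S, ¬ N p s ∧ ¬ N q s) → Dom N (insert c (D.erase x)) := fun x p q h1 h2 h3 h4 h5 h6 h7 h8 h9 u => by
    by_cases e : N c u
    · exact ⟨c, by simp, E.sy e⟩
    by_cases f : ∀ s ∈ S, ¬ N u s
    · exact (M.mx p q u h2 h3 h6 h9 e f).elim (fun g => ⟨p, by simp [h4, ne h7], E.sy g⟩)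
        fun g => ⟨q, by simp [h5, ne h8], E.sy g⟩
    · push Not at f
      obtain ⟨s, f, g⟩ := f
      exact ⟨s, mem_insert_of_mem (mem_erase.2 ⟨fun e => (M.s s f).1 (e ▸ h1), i (by simp [f])⟩), g⟩
  have ha : a ∈ D := i (by simp)
  have hb : b ∈ D := i (by simp)
  have hv : v ∈ D := i (by simp)
  have ba : ¬ N b a := fun e => M.ab (E.sy e)
  have av : ¬ N a v := fun e => n.1 (E.sy e)
  have bv : ¬ N b v := fun e => n.2.1 (E.sy e)
  have h1 := E.le1 k ha (z a b v M.ca M.cb cv hb hv bv ba n.1 fun s e => ⟨(M.s s e).2.2, n.2.2 s e⟩)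
  have h2 := E.le1 k hb (z b a v M.cb M.ca cv ha hv av M.ab n.2.1 fun s e => ⟨(M.s s e).2.1, n.2.2 s e⟩)
  have h3 := E.le1 k hv (z v a b cv M.ca M.cb ha hb M.ab av bv fun s e => (M.s s e).2)
  have := mn a (hK c a kc M.ca)
  have := mn b (hK c b kc M.cb)
  have := mn v (hK c v kc cv)
  exact E.three M.ab n.1 n.2.1 (by omega) (show w v = w c by omega) (E.sy M.ca) fun e => M.ab (e ▸ M.cb)

theorem Mx.side (E : Eqd N w t) (M : Mx N c a b S) {u} (h : ¬ N c u) (k : ∀ s ∈ S, ¬ N u s) (l : ¬ N a u) :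
    ∃ J, (∀ j ∈ J, ¬ N c j ∧ ¬ N a j ∧ ∀ s ∈ S, ¬ N j s) ∧ w a + (∑ v ∈ S, w v) + ∑ v ∈ J, w v = t := by
  obtain ⟨J, i, j, m, n⟩ := E.ext (E.ins M.i fun s e => (M.s s e).2.1) (¬ N c ·)
  have z : ∀ e ∈ J, ¬ N c e ∧ ¬ N a e ∧ ∀ s ∈ S, ¬ N e s := fun e f => ⟨i e f,
    fun g => disjoint_left.1 j (mem_insert_self a S) (m a (by simp) e (by simp [f]) g ▸ f),
    fun s g r => disjoint_left.1 j (mem_insert_of_mem g) (m e (by simp [f]) s (by simp [g]) r ▸ f)⟩
  refine ⟨J, z, ?_⟩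
  rw [← sum_insert fun e => (M.s a e).2.1 (E.rf a), ← sum_union j, ← E.eq]
  refine m.mds fun v => by_contra fun o => ?_
  have cv : N c v := by_contra fun e => o (n v e)
  push Not at o
  obtain ⟨d, p, q⟩ := n u h
  have r : d ∈ J := by
    simp only [mem_union, mem_insert] at p
    obtain (rfl | p) | p := p
    exacts [(l (E.sy q)).elim, (k d p q).elim, p]
  exact (M.mx a v d M.ca cv (fun e => o a (by simp) (E.sy e)) (fun s e => ⟨(M.s s e).2.1, o s (by simp [e])⟩)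
    (z d r).1 (z d r).2.2).elim (z d r).2.1 (o d p)

theorem Mx.one (E : Eqd N w t) (hI : ∀ x y, Sub N x y → x = y) (hK : ∀ x y, K x → N x y → K y) (kc : K c)
    (mn : ∀ x, K x → w c ≤ w x) (M : Mx N c a b S) (h : ∀ u, ¬ N c u → (∀ s ∈ S, ¬ N u s) → N a u) :
    ∃ z, ¬ N c z ∧ w z = w c := by
  classical
  have s1 := M.sum E hK kc mn
  have aS : a ∉ S := fun e => (M.s a e).2.1 (E.rf a)
  have s2 := E.ge (X := insert c (insert a S)) fun v => by
    by_cases e : N c v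
    · exact ⟨c, by simp, E.sy e⟩
    by_cases f : ∀ s ∈ S, ¬ N v s
    · exact ⟨a, by simp, E.sy (h v e f)⟩
    · push Not at f; exact f.imp fun s g => ⟨by simp [g.1], g.2⟩
  rw [sum_insert (by simpa using ⟨fun e => M.ab (e ▸ M.cb), fun e => (M.s c e).1 (E.rf c)⟩), sum_insert aS] at s2
  have s3 := mn b (hK c b kc M.cb)
  obtain ⟨D, i, j⟩ := Dom.mds (N := N) (X := insert a S ∪ univ.filter fun u => ¬ N c u ∧ ∀ s ∈ S, ¬ N u s) fun q => by
    by_cases e : N a q
    · exact ⟨a, by simp, E.sy e⟩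
    by_cases f : ∀ s ∈ S, ¬ N q s
    swap
    · push Not at f; exact f.imp fun s g => ⟨by simp [g.1], g.2⟩
    have cq : N c q := by_contra fun g => e (h q g f)
    obtain ⟨D, i, -, k⟩ := E.mis (E.ins (E.ins M.i fun s e => (M.s s e).2.1) (x := q)
      (forall_mem_insert .. |>.2 ⟨fun g => e (E.sy g), f⟩))
    have := sum_le_sum_of_subset (f := w) i
    rw [(E.eq D).1 k, sum_insert (by simpa using ⟨fun g => e (g ▸ E.rf _), fun g => f q g (E.rf q)⟩), sum_insert aS] at this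
    have := mn q (hK c q kc cq)
    obtain ⟨y, k, l, m⟩ := E.f3 hI (show w c = w q by omega) cq M.ca e
    exact ⟨y, mem_union_right _ (mem_filter.2 ⟨mem_univ _, fun g => l (E.sy g), fun s g r =>
      (m s r).elim (M.s s g).2.1 fun p => (M.s s g).1 (p ▸ cq)⟩), E.sy k⟩
  have m : ∀ d ∈ D, (d = a ∨ d ∈ S) ∨ ¬ N c d ∧ ∀ s ∈ S, ¬ N d s := fun d e => by
    simpa only [mem_union, mem_insert, mem_filter, mem_univ, true_and] using i e
  have k : insert a S ⊆ D := insert_subset (by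
    obtain ⟨d, e, f⟩ := j.1 c
    obtain (g | g) | g := m d e
    exacts [g ▸ e, ((M.s d g).1 f).elim, (g.1 f).elim]) fun s g => by
    obtain ⟨d, e, f⟩ := j.1 s
    obtain (r | r) | r := m d e
    exacts [((M.s s g).2.1 (E.sy (r ▸ f))).elim, M.i s g d r f ▸ e, (r.2 s g (E.sy f)).elim]
  have s4 := sum_sdiff (f := w) k
  rw [(E.eq D).1 j, sum_insert aS] at s4
  have := E.pos c
  obtain ⟨z, e⟩ : (D \ insert a S).Nonempty := nonempty_of_sum_ne_zero (f := w) (by omega)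
  have := single_le_sum (f := w) (fun _ _ => Nat.zero_le _) e
  rw [mem_sdiff, mem_insert] at e
  have f := (m z e.1).resolve_left e.2
  have := mn z (hK a z (hK c a kc M.ca) (h z f.1 f.2))
  exact ⟨z, f.1, by omega⟩

theorem Eqd.twin_ex (E : Eqd N w t) (hI : ∀ x y, Sub N x y → x = y) (hK : ∀ x y, K x → N x y → K y) (kc : K c)
    (mn : ∀ x, K x → w c ≤ w x) (h : N c a) (k : N c b) (l : ¬ N a b) : ∃ z, ¬ N c z ∧ w z = w c := by
  obtain ⟨a, b, S, M⟩ := E.mx h k l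
  by_cases p : ∀ u, ¬ N c u → (∀ s ∈ S, ¬ N u s) → N a u
  · exact M.one E hI hK kc mn p
  by_cases q : ∀ u, ¬ N c u → (∀ s ∈ S, ¬ N u s) → N b u
  · exact (M.symm E.toRS).one E hI hK kc mn q
  push Not at p q
  obtain ⟨u, p⟩ := p
  obtain ⟨v, q⟩ := q
  obtain ⟨J, i, j⟩ := M.side E p.1 p.2.1 p.2.2
  obtain ⟨J', i', j'⟩ := (M.symm E.toRS).side E q.1 q.2.1 q.2.2
  have := M.sum E hK kc mn
  obtain ⟨d, e, f⟩ := ((E.eq (S ∪ (J ∪ J'))).2 (by
    rw [sum_union (disjoint_left.2 fun s e f => (mem_union.1 f).elim (fun f => (i s f).2.2 s e (E.rf s))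
      fun f => (i' s f).2.2 s e (E.rf s)), sum_union (disjoint_left.2 fun s e f => (M.mx a b s M.ca M.cb M.ab
      (fun s e => (M.s s e).2) (i s e).1 (i s e).2.2).elim (i s e).2.1 (i' s f).2.1)]; omega)).1 c
  simp only [mem_union] at e
  obtain e | e | e := e
  exacts [((M.s d e).1 f).elim, ((i d e).1 f).elim, ((i' d e).1 f).elim]

theorem Eqd.aux (E : Eqd N w t) {A H : Finset V} (h : N c x) (i : ∀ u, ¬ N c u → ∃ d ∈ insert x A, N u d)
    (j : Disjoint (insert x A) H) (k : Mds N (insert x A ∪ H)) : ∑ v ∈ H, w v ≤ w c := by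
  classical
  have := E.ge (X := insert c (insert x A)) fun v => if e : N c v then ⟨c, by simp, E.sy e⟩ else
    (i v e).imp fun d f => ⟨mem_insert_of_mem f.1, f.2⟩
  rw [E.eq, sum_union j] at k
  by_cases e : c ∈ insert x A
  · rw [insert_eq_of_mem e] at this; omega
  · rw [sum_insert e] at this; omega

theorem Eqd.nbr (E : Eqd N w t) (hI : ∀ x y, Sub N x y → x = y) (hK : ∀ x y, K x → N x y → K y) (kc : K c)
    (mn : ∀ x, K x → w c ≤ w x) (h : ¬ N c z) (e : w z = w c) (ca : N c a) : w a = w c := by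
  by_cases ac : a = c
  · rw [ac]
  have t1 : ∀ v, N c v → v ≠ c → N z v := fun v => E.twin e.symm h
  have t2 : ∀ v, N z v → v ≠ z → N c v := fun v => E.twin e fun f => h (E.sy f)
  have ne : ∀ {x y}, ¬ N x y → x ≠ y := fun h e => h (e ▸ E.rf _)
  have cz : ∀ {A : Finset V}, Ind N A → (∀ v ∈ A, ¬ N c v) → z ∉ A → ∃ R, (∀ v ∈ R, ¬ N c v) ∧
      Disjoint (insert c (insert z A)) R ∧ w c + (w c + ∑ v ∈ A, w v) + ∑ v ∈ R, w v = t := fun {A} i j k => by
    obtain ⟨R, -, l, m, n⟩ := E.ext (E.ins (E.ins i fun v f g => j v f (t2 v g fun p => k (p ▸ f))) (x := c)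
      (forall_mem_insert .. |>.2 ⟨h, j⟩)) fun _ => True
    refine ⟨R, fun v f g => disjoint_left.1 l (mem_insert_self _ _) (m c (by simp) v (by simp [f]) g ▸ f), l, ?_⟩
    rw [← (E.eq _).1 (m.mds fun v => n v trivial), sum_union l, sum_insert (by
      simpa [ne h] using fun f => j c f (E.rf c)), sum_insert k, e]
  obtain ⟨b, cb, ab⟩ : ∃ b, N c b ∧ ¬ N a b := by
    by_contra n; push Not at n; exact ac (hI c a n).symm
  have za := t1 a ca ac
  obtain ⟨S, s1, s2, s3, s4⟩ := E.ext (E.pair ab) (¬ N c ·)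
  obtain ⟨H, -, h2, h3, h4⟩ := E.ext s3 fun _ => True
  have sa : ∀ s ∈ S, ¬ N a s := fun s f g => s1 s f (s3 a (by simp) s (by simp [f]) g ▸ ca)
  have iS : Ind N S := fun x f y g => s3 x (by simp [f]) y (by simp [g])
  obtain ⟨J, j1, j2, j3, j4⟩ := E.ext (E.ins iS sa) (¬ N c ·)
  rw [insert_union] at j3 j4
  have ja : ∀ s ∈ S ∪ J, ¬ N c s := fun s f => (mem_union.1 f).elim (s1 s) (j1 s)
  have iJ : Ind N (S ∪ J) := fun x f y g => j3 x (by simp [-mem_union, f]) y (by simp [-mem_union, g])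
  obtain ⟨A, -, a2, a3, a4⟩ := E.ext j3 fun _ => True
  have a5 := a3.mds fun v => a4 v trivial
  have a6 := E.aux ca j4 a2 a5
  rcases A.eq_empty_or_nonempty with rfl | ⟨q, hq⟩
  · obtain ⟨R, r1, r2, r3⟩ := cz iJ ja fun f => ja z f (j3 a (by simp) z (by simp [-mem_union, f]) (E.sy za) ▸ ca)
    have h5 := (E.eq _).1 (h3.mds fun v => h4 v trivial)
    have hH : ∀ v ∈ H, N c v ∧ v ≠ c ∧ v ≠ b := fun v f => by
      have g : ∀ d ∈ {a, b} ∪ S, ¬ N v d := fun d g r =>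
        disjoint_left.1 h2 g (h3 v (mem_union_right _ f) d (mem_union_left _ g) r ▸ f)
      exact ⟨by_contra fun r => (s4 v r).elim fun d p => g d p.1 p.2, fun r => g a (by simp) (r ▸ ca),
        (ne (g b (by simp)))⟩
    have bc : b ≠ c := fun f => ab (E.sy (f ▸ ca))
    rw [union_empty, E.eq, sum_insert (fun f => ja a f ca), sum_union (j2.mono_left (subset_insert _ _))] at a5
    rw [sum_union (j2.mono_left (subset_insert _ _))] at r3
    rw [sum_union h2, sum_union s2, sum_pair (ne ab)] at h5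
    have zS : z ∉ S := fun f => sa z f (E.sy za)
    refine (E.f4 (D := (insert c (insert z S) ∪ R) ∪ insert b H) ((E.eq _).2 ?_) (by simp) (by simp) (by simp) e.symm h
      cb bc).elim
    rw [sum_union, sum_union (r2.mono_left (by gcongr; exact subset_union_left)), sum_insert (by
      simpa [ne h] using fun f => s1 c f (E.rf c)), sum_insert zS, sum_insert fun f => (hH b f).2.2 rfl]
    · omega
    refine disjoint_right.2 fun v f g => ?_
    have : N c v ∧ v ≠ c := (mem_insert.1 f).elim (· ▸ ⟨cb, bc⟩) fun f => ⟨(hH v f).1, (hH v f).2.1⟩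
    simp only [mem_union, mem_insert] at g
    obtain (g | g | g) | g := g
    exacts [this.2 g, h (g ▸ this.1), s1 v g this.1, r1 v g this.1]
  have nq : ∀ d ∈ insert a (S ∪ J), ¬ N q d := fun d g r =>
    disjoint_left.1 a2 g (a3 q (mem_union_right _ hq) d (mem_union_left _ g) r ▸ hq)
  have cq : N c q := by_contra fun r => (j4 q r).elim fun d p => nq d p.1 p.2
  have qc : q ≠ c := fun r => nq a (by simp) (r ▸ ca)
  have q1 := mn q (hK c q kc cq)
  have q2 := add_sum_erase A w hq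
  obtain ⟨B, b1, b2, b3, b4⟩ := E.ext (I := {q}) (fun x f y g _ => by simp_all) (¬ N c ·)
  rw [← insert_eq] at b3 b4
  obtain ⟨C, -, c2, c3, c4⟩ := E.ext b3 fun _ => True
  have c5 := c3.mds fun v => c4 v trivial
  have c6 := E.aux cq b4 c2 c5
  obtain ⟨R, -, -, r3⟩ := cz (fun x f y g => b3 x (by simp [f]) y (by simp [g])) b1
    fun f => b1 z f (b3 q (by simp) z (by simp [f]) (E.sy (t1 q cq qc)) ▸ cq)
  rw [E.eq, sum_union c2, sum_insert fun f => b1 q f cq] at c5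
  have := E.pos c
  obtain ⟨p, hp⟩ : C.Nonempty := nonempty_of_sum_ne_zero (f := w) (by omega)
  have np : ∀ d ∈ insert q B, ¬ N p d := fun d g r =>
    disjoint_left.1 c2 g (c3 p (mem_union_right _ hp) d (mem_union_left _ g) r ▸ hp)
  have cp : N c p := by_contra fun r => (b4 p r).elim fun d g => np d g.1 g.2
  have p1 := mn p (hK c p kc cp)
  have p2 := single_le_sum (f := w) (fun _ _ => Nat.zero_le _) hp
  obtain ⟨d, f, g⟩ := a5.1 p
  have dA : d ∉ A := fun r => by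
    have := single_le_sum (f := w) (fun _ _ => Nat.zero_le _) (mem_erase.2 ⟨fun s : d = q => np q (by simp) (s ▸ g), r⟩)
    have := E.pos d
    omega
  have f := (mem_union.1 f).resolve_right dA
  obtain rfl : d = p := by_contra fun r => nq d f (E.twin (by omega) (np q (by simp)) g r)
  obtain rfl := (mem_insert.1 f).resolve_right fun r => ja d r cp
  omega

theorem Eqd.cock (E : Eqd N w t) (hI : ∀ x y, Sub N x y → x = y) (hK : ∀ x y, K x → N x y → K y) (kc : K c)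
    (mn : ∀ x, K x → w c ≤ w x) (h : ¬ N c z) (e : w z = w c) (x) (i : N c x ∨ x = z) :
    ∃ x', (N c x' ∨ x' = z) ∧ ∀ y, N x y ↔ (N c y ∨ y = z) ∧ y ≠ x' := by
  have t1 : ∀ v, N c v → v ≠ c → N z v := fun v => E.twin e.symm h
  have t2 : ∀ v, N z v → v ≠ z → N c v := fun v => E.twin e fun f => h (E.sy f)
  have nb := fun a => E.nbr (a := a) hI hK kc mn h e
  obtain ca | rfl := i
  swap
  · exact ⟨c, .inl (E.rf c), fun y => ⟨fun f => ⟨(em _).symm.imp_left (t2 y f), fun g => h (E.sy (g ▸ f))⟩,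
      fun f => f.1.elim (t1 y · f.2) (· ▸ E.rf _)⟩⟩
  by_cases ac : x = c
  · subst ac; exact ⟨z, .inr rfl, fun y => ⟨fun f => ⟨.inl f, fun g => h (g ▸ f)⟩, fun f => f.1.resolve_right f.2⟩⟩
  obtain ⟨b, cb, ab⟩ : ∃ b, N c b ∧ ¬ N x b := by
    by_contra n; push Not at n; exact ac (hI c x n).symm
  have e1 := nb x ca
  have e2 := nb b cb
  refine ⟨b, .inl cb, fun y => ⟨fun f => ⟨by_contra fun g => ?_, fun g => ab (g ▸ f)⟩, fun f => by_contra fun g => ?_⟩⟩
  · push Not at g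
    have := E.nbr hI hK (hK c x kc ca) (fun v k => e1 ▸ mn v k) ab (by omega) f
    exact E.three h (fun k => g.1 (E.sy k)) (fun k => g.1 (t2 y (E.sy k) g.2)) e.symm this ca ac
  · have cy := f.1.resolve_right fun k => g (k ▸ E.sy (t1 x ca ac))
    exact E.three ab (fun k => g (E.sy k)) (fun k => g (E.twin (by omega) (fun k => ab (E.sy k)) (E.sy k) f.2))
      (by omega) (nb y cy) (E.sy ca) (Ne.symm ac)

theorem Eqd.ml_inc (E : Eqd N w t) (hI : ∀ x y, Sub N x y → x = y) : ML N := fun c1 l => by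
  classical
  obtain ⟨c, kc, mn⟩ := exists_min_image (univ.filter fun x => Relation.ReflTransGen N x c1) w
    ⟨c1, mem_filter.2 ⟨mem_univ _, .refl⟩⟩
  simp only [mem_filter, mem_univ, true_and] at kc mn
  have hK : ∀ x y, Relation.ReflTransGen N x c1 → N x y → Relation.ReflTransGen N y c1 := fun x y h k => h.head (E.sy k)
  obtain ⟨a, b, p, q, r⟩ : ∃ a b, N c a ∧ N c b ∧ ¬ N a b := by
    by_contra n
    push Not at n
    have : ∀ x, Relation.ReflTransGen N c x → x = c := fun x h => by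
      induction h with
      | refl => rfl
      | tail _ k ih => exact (hI c _ fun y => n _ y (ih ▸ k)).symm
    obtain ⟨a, b, p, q, r⟩ := l.2
    exact r (n a b (this c1 kc ▸ p) (this c1 kc ▸ q))
  obtain ⟨z, h, e⟩ := E.twin_ex hI hK kc mn p q r
  have B := E.cock hI hK kc mn h e
  have : ∀ x, Relation.ReflTransGen N c x → N c x ∨ x = z := fun x h => by
    induction h with
    | refl => exact .inl (E.rf c)
    | tail _ k ih => obtain ⟨_, -, f⟩ := B _ ih; exact ((f _).1 k).1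
  obtain ⟨x, i, j⟩ := B c1 (this c1 kc)
  exact ⟨x, (Blk.tr ⟨h, fun x i => .inr (B x i)⟩ i j).1⟩

end Pool.Agent.H.MP_e5edb0_lc
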