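import Pool.Agent.H.MP_e5edb0_lc.B

namespace Pool.Agent.H.MP_e5edb0_lc

open Finset

variable {V : Type} [Fintype V] [DecidableEq V] {N : V → V → Prop} {w : V → ℕ} {t : ℕ} {D X I S : Finset V}
  {a b c x y z u o : V}

def Iso (N : V → V → Prop) (u x y : V) : Prop := x = y ∨ x ≠ u ∧ y ≠ u ∧ N x y

theorem RS.iso (E : RS N) (h : x ≠ u) : Iso N u x y ↔ y ≠ u ∧ N x y :=
  ⟨fun e => e.elim (fun e => e ▸ ⟨h, E.rf x⟩) (·.2), fun e => .inr ⟨h, e⟩⟩

theorem RS.iso' (E : RS N) : RS (Iso N u) :=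
  ⟨fun _ => .inl rfl, fun e => e.imp .symm fun e => ⟨e.2.1, e.1, E.sy e.2.2⟩⟩

theorem dom_del (s : Sub N o u) (n : o ≠ u) (h : ∀ v ≠ u, ∃ d ∈ D, N v d) : Dom N D := fun v =>
  if e : v = u then (h o n).imp fun d f => ⟨f.1, e ▸ s d f.2⟩ else h v e

theorem Eqd.del (E : Eqd N w t) (s : Sub N o u) (n : o ≠ u) :
    ∃ M, Eqd (Iso N u) (Function.update w u M) (M + t) := by
  have d : ∀ D, Dom (Iso N u) D ↔ u ∈ D ∧ Dom N (D.erase u) := fun D => ⟨fun h => ⟨by
    obtain ⟨d, e, rfl | f⟩ := h u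
    exacts [e, (f.1 rfl).elim], dom_del s n fun v e => (h v).imp fun d f =>
      ⟨mem_erase.2 ⟨((E.iso e).1 f.2).1, f.1⟩, ((E.iso e).1 f.2).2⟩⟩, fun h v => if e : v = u then ⟨u, h.1, .inl e⟩ else
      (h.2 v).imp fun d f => ⟨mem_of_mem_erase f.1, .inr ⟨e, ne_of_mem_erase f.1, f.2⟩⟩⟩
  refine ⟨∑ v, w v + 1, E.iso', fun x => ?_, fun D => ?_⟩
  · by_cases e : x = u <;> simp [e, E.pos]
  by_cases e : u ∈ D
  · rw [sum_update_of_mem e, add_right_inj, sdiff_singleton_eq_erase, ← E.eq]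
    simp only [Mds, d, e, true_and, mem_erase]
    exact and_congr_right fun _ => ⟨fun h x f g => h x f.2 ⟨⟨Ne.symm f.1, trivial⟩, by rwa [erase_right_comm]⟩,
      fun h x f g => h x ⟨Ne.symm g.1.1, f⟩ (by rw [erase_right_comm]; exact g.2)⟩
  · have := sum_le_sum_of_subset (f := w) (subset_univ D)
    rw [sum_update_of_notMem e]
    exact iff_of_false (fun h => e ((d D).1 h.1).1) (by omega)

theorem Eqd.step (E : Eqd N w t) (s : Sub N o u) (n : o ≠ u) (M : ML (Iso N u)) : ML N := by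
  classical
  obtain ⟨m, E'⟩ := E.del s n
  have R := E'.toRS
  have iu : ∀ {x y}, Iso N u x y → y ≠ u → x ≠ u := fun h e => h.elim (· ▸ e) (·.1)
  have dn : ∀ {x y}, Iso N u x y → N x y := fun h => h.elim (· ▸ E.rf _) (·.2.2)
  have lu : ∀ {z}, Lam (Iso N u) z → z ≠ u := fun ⟨_, a, b, p, q, r⟩ e => r (by
    subst e
    rw [← p.resolve_right fun p => p.1 rfl, ← q.resolve_right fun p => p.1 rfl]; exact .inl rfl)
  have T : ∀ {z z'}, Lam (Iso N u) z → Blk (Iso N u) z z' → Lam (Iso N u) z' ∧ ¬ N z z' ∧ w z = w z' := fun {z z'} l B => by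
    have l' := B.lam R l (.inl (R.rf z)) (B.snd R)
    have := B.eq E' l
    rw [Function.update_of_ne (lu l), Function.update_of_ne (lu l')] at this
    exact ⟨l', fun e => B.1 (.inr ⟨lu l, lu l', e⟩), this⟩
  have T' : ∀ {z z'}, Lam (Iso N u) z → Blk (Iso N u) z z' → N u z → N u z' := fun l B e =>
    E.sy (E.twin (T l B).2.2 (T l B).2.1 (E.sy e) (lu l).symm)
  have dc : ∀ {D}, u ∉ D → (∀ z, Cen (Iso N u) z ∧ z ≠ u → ∃ d ∈ D, N z d) → Dom N D := fun h k =>
    dom_del s n fun v e => by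
      obtain ⟨z, i, j⟩ := cen_ex (Iso N u) v
      have zu : z ≠ u := iu (R.sy (j z (R.rf z))) e
      obtain ⟨d, f, g⟩ := k z ⟨i, zu⟩
      exact ⟨d, f, dn (j d (.inr ⟨zu, fun r => h (r ▸ f), g⟩))⟩
  have su : Ind N {u} := fun x f y g _ => by simp_all
  obtain ⟨A, -, a2, a3, a4⟩ := E.ext su fun _ => True
  have uA : u ∉ A := disjoint_singleton_left.1 a2
  obtain ⟨Q, q1, q2, q3, q4⟩ := E.ext (I := A) (fun x f y g => a3 x (by simp [f]) y (by simp [g]))
    fun z => Cen (Iso N u) z ∧ z ≠ u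
  have uQ : u ∉ Q := fun e => (q1 u e).2 rfl
  have wQ : ∑ v ∈ ({u} : Finset V), w v = ∑ v ∈ Q, w v := by
    have h1 := (E.eq _).1 (a3.mds fun v => a4 v trivial)
    have h2 := (E.eq _).1 (q3.mds (dc (by simp [uA, uQ]) q4))
    rw [sum_union a2] at h1
    rw [sum_union q2] at h2
    omega
  have uq : ∀ r ∈ Q, N u r := fun r e => by
    obtain ⟨d, f, g⟩ := a4 r trivial
    obtain f | f := mem_union.1 f
    · exact E.sy (mem_singleton.1 f ▸ g)
    · exact (disjoint_left.1 q2 f (q3 r (by simp [e]) d (by simp [f]) g ▸ e)).elim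
  have tq : ∀ r ∈ Q, ∀ r', Lam (Iso N u) r → Blk (Iso N u) r r' → r' ∈ Q := fun r e r' l B => by
    have l' := T l B
    obtain ⟨d, f, g⟩ := q4 r' ⟨l'.1.1, lu l'.1⟩
    have du : d ≠ u := fun p => by simp [p, uA, uQ] at f
    obtain rfl : d = r' := by
      have := (B.snd R d).1 (.inr ⟨lu l'.1, du, g⟩)
      exact this.1.resolve_left fun p => this.2 (q3 r (by simp [e]) d f (dn p)).symm
    exact (mem_union.1 f).resolve_left fun p => du (a3 u (by simp) d (by simp [p]) (T' l B (uq r e))).symm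
  have cq : ∀ r ∈ Q, Sub N r u := fun r e y f => by_contra fun g => by
    obtain ⟨D, i, j, k⟩ := E.mis (E.pair g)
    have hu : u ∈ D := i (by simp)
    have yu : y ≠ u := fun p => g (p ▸ E.rf _)
    have yr : y ≠ r := fun p => g (p ▸ uq r e)
    have ru := (q1 r e).2
    have k := E.swap k (singleton_subset_iff.2 hu)
      (disjoint_right.2 fun x p q => (q1 x p).2 (j u hu x q (uq x p)).symm) wQ
    have hy : y ∈ D \ {u} ∪ Q := by simp [yu, i (show y ∈ {u, y} by simp)]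
    refine k.2 r (by simp [e]) (dom_del s n fun v p => ?_)
    obtain ⟨d, d1, d2⟩ := k.1 v
    by_cases d3 : d = r
    swap
    · exact ⟨d, mem_erase.2 ⟨d3, d1⟩, d2⟩
    have rv : Iso N u r v := .inr ⟨ru, p, E.sy (d3 ▸ d2)⟩
    have ry : Iso N u r y := .inr ⟨ru, yu, f⟩
    by_cases l : Lam (Iso N u) y
    swap
    · exact ⟨y, mem_erase.2 ⟨yr, hy⟩, E.sy (dn (M.k1 R (q1 r e).1 ry l v rv))⟩
    have l := (q1 r e).1.lam_of ry l
    obtain ⟨r', B⟩ := M r l
    by_cases vr : v = r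
    · exact ⟨y, mem_erase.2 ⟨yr, hy⟩, vr ▸ f⟩
    · exact ⟨r', mem_erase.2 ⟨fun p => B.1 (p ▸ R.rf _), mem_union_right _ (tq r e r' l B)⟩,
        E.sy (dn ((B.snd R v).2 ⟨.inl rv, vr⟩))⟩
  have P1 : ∀ {z z'}, Lam (Iso N u) z → Blk (Iso N u) z z' → N u z → ∀ v, Iso N u z v ∨ v = z' → N u v :=
    fun {z z'} l B e v f => by_contra fun g => by
      have l' := T l B
      have nq : ∀ r ∈ Q, ¬ (Iso N u z r ∨ r = z') := fun r p q => by
        obtain ⟨r', i, j⟩ := B.two (q1 r p).1 q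
        obtain rfl : v = r' := by_contra fun k => g (cq r p v (dn ((j v).2 ⟨f, k⟩)))
        exact g (T' (B.lam R l i j) (B.tr i j).1 (uq r p))
      have iQ : Ind N Q := fun x f y g => q3 x (by simp [f]) y (by simp [g])
      obtain ⟨J, j1, -, j3, j4⟩ := E.ext (E.ins (E.ins iQ (x := z') fun r p q => nq r p
        ((B.snd R r).1 (.inr ⟨lu l'.1, (q1 r p).2, q⟩)).1) (x := z) (forall_mem_insert .. |>.2
          ⟨l'.2.1, fun r p q => nq r p (.inl (.inr ⟨lu l, (q1 r p).2, q⟩))⟩)) (· ≠ u)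
      refine E.f4 (E.swap (j3.mds (dom_del s n j4)) (A := Q) (B := {u}) (fun x p => by simp [p]) ?_ wQ.symm) ?_ ?_
        (by simp) l'.2.2 l'.2.1 (E.sy e) (lu l).symm
      · simpa [(lu l).symm, (lu l'.1).symm, uQ] using fun p => j1 u p rfl
      · simp [show z ∉ Q from fun p => nq z p (.inl (R.rf z))]
      · simp [show z' ∉ Q from fun p => nq z' p (.inr rfl)]
  have P2 : ∀ {z}, Cen (Iso N u) z → ¬ Lam (Iso N u) z → z ≠ u → (∀ z', Sub (Iso N u) z' z → N u z') →
      ∀ v, Iso N u z v → N u v := fun {z} h l zu k v f => by_contra fun g => by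
    obtain ⟨D, i, j⟩ := Dom.mds (N := N) (X := univ.filter fun x => x = u ∨ ¬ N z x) fun x => by_contra fun p => by
      simp only [mem_filter, mem_univ, true_and, not_exists, not_and, or_imp, forall_and, forall_eq,
        not_imp_not] at p
      have xu : x ≠ u := fun q => p.1 (q ▸ E.rf _)
      exact p.1 (E.sy (k x fun y q => .inr ⟨zu, ((E.iso xu).1 q).1, p.2 y (dn q)⟩))
    have i : ∀ d ∈ D, d = u ∨ ¬ N z d := fun d e => by simpa using i e
    obtain ⟨d, e, p⟩ := j.1 z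
    obtain rfl := (i d e).resolve_right fun q => q p
    obtain ⟨x, q, r⟩ := (E.swap j (singleton_subset_iff.2 e) (disjoint_right.2 fun r p q =>
      j.red q fun v k => ⟨d, e, (q1 r p).2.symm, E.sy (cq r p v (E.sy k))⟩) wQ).1 z
    simp only [mem_union, mem_sdiff, mem_singleton] at q
    obtain q | q := q
    · exact (i x q.1).elim q.2 (· r)
    · exact g (cq x q v (dn (by_contra fun y => l ⟨h, x, v, .inr ⟨zu, (q1 x q).2, r⟩, f, y⟩)))
  have main : ∀ c ≠ u, Lam N c → ∃ c', Blk N c c' := fun c cu l => by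
    have key : ∀ z', Sub (Iso N u) z' c → z' ≠ u → ¬ N u z' ∨ N u c → Sub N c z' := fun z' i j k => l.1 z' fun y p =>
      if e : y = u then e ▸ E.sy (k.resolve_left fun k => k (E.sy (e ▸ p))) else dn (i y (.inr ⟨j, e, p⟩))
    have cc : Cen (Iso N u) c := by
      obtain ⟨z, i, j⟩ := cen_ex (Iso N u) c
      have cz := j z (R.rf z)
      have zu : z ≠ u := iu (R.sy cz) cu
      suffices ∃ z', Sub (Iso N u) z' z ∧ (¬ N u z' ∨ N u c) by
        obtain ⟨z', p, q⟩ := this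
        have zz := iu (R.sy (p z' (R.rf _))) zu
        have := key z' (fun y e => j y (p y e)) zz q
        have : Sub (Iso N u) c z := fun y e => p y (.inr ⟨zz, ((E.iso cu).1 e).1, this y (dn e)⟩)
        exact fun x e y f => i x (fun y f => this y (e y f)) y (this y f)
      by_contra k
      push Not at k
      refine (k z fun _ h => h).2 ?_
      by_cases p : Lam (Iso N u) z
      · obtain ⟨z', B⟩ := M z p
        exact P1 p B (k z fun _ h => h).1 c (.inl (R.sy cz))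
      · exact P2 i p zu (fun z' q => (k z' q).1) c (R.sy cz)
    by_cases p : Lam (Iso N u) c
    · obtain ⟨c', B⟩ := M c p
      have l' := T p B
      have ib : ∀ {y}, y ≠ u → (Iso N u c y ∨ y = c' ↔ N c y ∨ y = c') := fun e => by simp [E.iso cu, e]
      have iu' : ∀ {y}, Iso N u c y ∨ y = c' → y ≠ u := fun e => e.elim (fun e => ((E.iso cu).1 e).1) (· ▸ lu l'.1)
      refine ⟨c', l'.2.1, fun x e => ?_⟩
      have ux : N c u ∨ u = c' → N u c := fun e => E.sy (e.resolve_right (lu l'.1).symm)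
      by_cases xu : x = u
      · exact .inl fun y f => if k : y = u then k ▸ xu ▸ E.rf _ else xu ▸ P1 p B (ux (xu ▸ e)) y ((ib k).2 f)
      have e := (ib xu).2 e
      refine (B.2 x e).imp (fun f y g => if k : y = u then k ▸ E.sy (P1 p B (ux (k ▸ g)) x e) else dn (f y ((ib k).2 g)))
        fun ⟨x', i, f⟩ => ⟨x', (ib (iu' i)).1 i, fun y => ?_⟩
      by_cases k : y = u
      · subst k
        refine ⟨fun g => ⟨.inl (E.sy (P1 (B.lam R p i f) (B.tr i f).1 (E.sy g) c
          (((B.tr i f).2 c).2 (.inl (R.rf c))))), (iu' i).symm⟩, fun g => E.sy (P1 p B (ux g.1) x e)⟩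
      · rw [← ib k, ← f, E.iso xu]; simp [k]
    · obtain ⟨v, i, j, k⟩ : ∃ v, N c v ∧ ¬ N u v ∧ N c u := by
        obtain ⟨a, b, i, j, k⟩ := l.2
        by_cases au : a = u
        · exact ⟨b, j, au ▸ k, au ▸ i⟩
        by_cases bu : b = u
        · exact ⟨a, i, fun e => k (bu ▸ E.sy e), bu ▸ j⟩
        exact (p ⟨cc, a, b, .inr ⟨cu, au, i⟩, .inr ⟨cu, bu, j⟩, fun e => k (dn e)⟩).elim
      exact (j (P2 cc p cu (fun z' q => E.sy (key z' q (iu (R.sy (q z' (R.rf _))) cu) (.inr (E.sy k)) u k)) v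
        (.inr ⟨cu, fun e => j (e ▸ E.rf _), i⟩))).elim
  intro c l
  by_cases e : c = u
  swap
  · exact main c e l
  subst e
  have e : N o = N c := funext fun y => propext ⟨s y, l.1 o s y⟩
  have := main o n (by unfold Lam Cen Sub at *; rwa [e])
  unfold Blk at *
  rwa [e] at this

theorem Eqd.ml (E : Eqd N w t) : ML N := by
  induction N using WellFoundedLT.induction generalizing w t with
  | ind N ih =>
    by_cases h : ∀ x y, Sub N x y → x = y
    · exact E.ml_inc h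
    push Not at h
    obtain ⟨o, u, s, n⟩ := h
    obtain ⟨m, E'⟩ := E.del s n
    refine E.step s n (ih _ (lt_of_le_of_ne (fun x y h => h.elim (· ▸ E.rf _) (·.2.2)) fun e => ?_) E')
    have : Iso N u u o := by rw [e]; exact s o (E.rf o)
    exact this.elim (n ·.symm) (·.1 rfl)

end Pool.Agent.H.MP_e5edb0_lc
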