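import Pool.Agent.H.MP_e5edb0_lc.C

namespace Pool.Agent.H.MP_e5edb0_lc

open Finset

variable {V : Type} [Fintype V] [DecidableEq V] {N : V → V → Prop} {w : V → ℕ} {t : ℕ} {D : Finset V} {a b c x y z : V}

theorem Eqd.l3 (E : Eqd N w t) : L3 N := fun a b c hc ca cb la lb => by
  classical
  have M := E.ml
  by_contra n
  push Not at n
  obtain ⟨⟨p, p1, p2, p3⟩, q, q1, q2, q3⟩ := n
  obtain ⟨J, j1, -, j3, j4⟩ := E.ext (I := {c}) (fun x f y g _ => by simp_all) (Cen N)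
  rw [← insert_eq] at j3 j4
  have jc : ∀ x ∈ insert c J, Cen N x := forall_mem_insert .. |>.2 ⟨hc, j1⟩
  have cT := mem_insert_self c J
  generalize insert c J = T at *
  have h0 := (E.eq _).1 (j3.mds (dom_cen j4))
  have k : ∀ {v z}, ¬ Lam N v → Cen N z → ¬ N z v → ∀ d ∈ T, N z d → ¬ N v d := fun l h e d f g r =>
    e (E.sy (M.k1 E.toRS (jc d f) (E.sy r) l _ (E.sy g)))
  have h1 : ∀ {v}, ¬ Lam N v → w v = ∑ x ∈ T, if N v x then w x else 0 := fun {v} l => by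
    have := (E.eq _).1 ((E.ins (I := T.filter (¬ N v ·)) (x := v) (fun x f y g => j3 x (mem_filter.1 f).1 y
      (mem_filter.1 g).1) fun y f => (mem_filter.1 f).2).mds (dom_cen fun z h => if e : N z v then ⟨v, by simp, e⟩ else
        (j4 z h).imp fun d f => ⟨by simp [f.1, k l h e d f.1 f.2], f.2⟩))
    rw [sum_insert (by simp [E.rf]), ← h0, ← sum_filter_add_sum_filter_not T (N v)] at this
    rw [← sum_filter]; omega
  have ab : a ≠ b := fun e => p3 (e ▸ p2)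
  have h2 := (E.eq (insert a (insert b (T.filter fun x => ¬ N a x ∧ ¬ N b x)))).1 ⟨dom_cen fun z h =>
    if e : N z a then ⟨a, by simp, e⟩ else if e' : N z b then ⟨b, by simp, e'⟩ else (j4 z h).imp fun d f =>
      ⟨by simp [f.1, k la h e d f.1 f.2, k lb h e' d f.1 f.2], f.2⟩, fun d f g => ?_⟩
  · rw [sum_insert (by simp [E.rf, ab]), sum_insert (by simp [E.rf]), h1 la, h1 lb, sum_filter, ← sum_add_distrib,
      ← sum_add_distrib, ← h0] at h2
    refine h2.not_gt (sum_lt_sum (fun x _ => ?_) ⟨c, cT, ?_⟩)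
    · by_cases N a x <;> by_cases N b x <;> simp [*]
    · simp [E.sy ca, E.sy cb, E.pos]
  simp only [Dom, mem_erase, mem_insert, mem_filter] at f g
  obtain rfl | rfl | f := f
  · obtain ⟨x, ⟨i, rfl | rfl | j⟩, l⟩ := g p
    exacts [i rfl, p3 l, j.2.1 (M.k1 E.toRS p1 p2 la x l)]
  · obtain ⟨x, ⟨i, rfl | rfl | j⟩, l⟩ := g q
    exacts [q3 l, i rfl, j.2.2 (M.k1 E.toRS q1 q2 lb x l)]
  · obtain ⟨x, ⟨i, rfl | rfl | j⟩, l⟩ := g d
    exacts [f.2.1 (E.sy l), f.2.2 (E.sy l), i (j3 d f.1 x j.1 l).symm]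

open Classical in
noncomputable def mm (N : V → V → Prop) (c v : V) : ℕ :=
  if N c v ∧ ¬ Lam N v then 2 else if Lam N v ∧ (N c v ∨ Lam N c ∧ Blk N c v) then 1 else 0

theorem mm_pos (h : N c x) : 1 ≤ mm N c x := by unfold mm; split_ifs <;> simp_all

theorem Blk.uniq {c1 c2} (E : RS N) (h : Blk N c c1) (k : Blk N c c2) (l : Lam N c) : c2 = c1 := by
  obtain ⟨a, b, p, q, r⟩ := l.2
  exact ((h.opp (.inl p) (.inl q) r c2).1 ((k.opp (.inl p) (.inl q) r c2).2
    ⟨.inr rfl, fun e => k.1 (e ▸ q)⟩)).1.resolve_left k.1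

theorem dom_iff (E : RS N) (M : ML N) : Dom N D ↔ ∀ c, Cen N c → 2 ≤ ∑ v ∈ D, mm N c v := by
  classical
  refine ⟨fun h c hc => ?_, fun h => dom_cen fun c hc => by_contra fun n => ?_⟩
  · by_cases e : ∃ d ∈ D, N c d ∧ ¬ Lam N d
    · obtain ⟨d, f, g⟩ := e
      exact (if_pos g).ge.trans (single_le_sum (f := mm N c) (fun _ _ => Nat.zero_le _) f)
    obtain ⟨d, f, g⟩ := h c
    have l : Lam N d := by_contra fun l => e ⟨d, f, g, l⟩
    have lc := hc.lam_of g l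
    obtain ⟨c', B⟩ := M c lc
    obtain ⟨d', i, j⟩ := B.two l.1 (.inl g)
    have nd : ¬ N d d' := by simp [j]
    obtain ⟨x, p, q⟩ := h d'
    have xd : d ≠ x := fun r => nd (E.sy (r ▸ q))
    have : 1 ≤ mm N c x := ((B.opp i (.inl g) (fun r => nd (E.sy r)) x).1 q).1.elim mm_pos fun r => by
      subst r
      simp [mm, B.1, B.lam E lc (.inl (E.rf c)) (B.snd E), lc, B]
    have := mm_pos g
    have := sum_le_sum_of_subset (f := mm N c) (s := {d, x}) (insert_subset f (singleton_subset_iff.2 p))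
    rw [sum_pair xd] at this
    omega
  · push Not at n
    have := h c hc
    rw [← sum_filter_ne_zero] at this
    have k : ∀ v ∈ D.filter (mm N c · ≠ 0), mm N c v = 1 ∧ Lam N c ∧ Blk N c v := fun v f => by
      rw [mem_filter] at f
      have := n v f.1
      unfold mm at *
      split_ifs at * <;> simp_all
    rw [sum_congr rfl fun v f => (k v f).1, ← card_eq_sum_ones] at this
    obtain ⟨x, p, y, q, r⟩ := one_lt_card.1 this
    exact r ((k y q).2.2.uniq E (k x p).2.2 (k x p).2.1)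

theorem mds_iff (E : RS N) (M : ML N) (L : L3 N) : Mds N D ↔ ∀ c, Cen N c → ∑ v ∈ D, mm N c v = 2 := by
  classical
  refine ⟨fun h c hc => le_antisymm ?_ ((dom_iff E M).1 h.1 c hc), fun h =>
    ⟨(dom_iff E M).2 fun c hc => (h c hc).ge, fun d e f => ?_⟩⟩
  swap
  · obtain ⟨z, i, j⟩ := cen_ex N d
    have := (dom_iff E M).1 f z i
    have := add_sum_erase D (mm N z) e
    have := mm_pos (E.sy (j z (E.rf z)))
    have := h z i
    omega
  have red : ∀ x ∈ D, ¬ ∀ z, Cen N z → N z x → ∃ d ∈ D, d ≠ x ∧ N z d := fun x e k => h.2 x e (dom_cen fun z i => by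
    obtain ⟨d, p, q⟩ := h.1 z
    by_cases r : d = x
    · exact (k z i (r ▸ q)).imp fun d f => ⟨mem_erase.2 ⟨f.2.1, f.1⟩, f.2.2⟩
    · exact ⟨d, mem_erase.2 ⟨r, p⟩, q⟩)
  rw [← sum_filter_ne_zero]
  have k : ∀ v ∈ D.filter (mm N c · ≠ 0), v ∈ D ∧ (mm N c v = 2 ∧ N c v ∧ ¬ Lam N v ∨ mm N c v = 1 ∧ Lam N v ∧
      (N c v ∨ Lam N c ∧ Blk N c v)) := fun v f => by
    rw [mem_filter] at f
    refine ⟨f.1, ?_⟩
    have := f.2
    unfold mm at *
    split_ifs at * <;> simp_all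
  generalize D.filter (mm N c · ≠ 0) = F at *
  have kb : ∀ {v}, Lam N v ∧ (N c v ∨ Lam N c ∧ Blk N c v) → Lam N c ∧ ∀ c', Blk N c c' → N c v ∨ v = c' := fun f =>
    ⟨f.2.elim (hc.lam_of · f.1) (·.1), fun c' B => f.2.imp_right fun g => B.uniq E g.2 g.1⟩
  by_cases e : ∃ y ∈ F, ¬ Lam N y
  · obtain ⟨y, p, q⟩ := e
    obtain ⟨y1, y2⟩ := k y p
    replace y2 := y2.resolve_right fun r => q r.2.1
    rw [eq_singleton_iff_unique_mem.2 ⟨p, fun x f => by_contra fun r => ?_⟩, sum_singleton, y2.1]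
    obtain ⟨x1, x2 | x2⟩ := k x f
    · exact (L x y c hc x2.2.1 y2.2.1 x2.2.2 q).elim (fun g => red x x1 fun z i j => ⟨y, y1, Ne.symm r, g z i j⟩)
        fun g => red y y1 fun z i j => ⟨x, x1, r, g z i j⟩
    · obtain ⟨l, g⟩ := kb x2.2
      obtain ⟨c', B⟩ := M c l
      obtain ⟨x', -, j⟩ := B.two x2.2.1.1 (g c' B)
      obtain i | ⟨y', i, i'⟩ := B.2 y (.inl y2.2.1)
      · exact red x x1 fun z _ m => ⟨y, y1, Ne.symm r, E.sy (i z ((j z).1 (E.sy m)).1)⟩
      · exact q (B.lam E l i i')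
  push Not at e
  replace k := fun v f => (k v f).imp_right (·.resolve_left fun r => r.2.2 (e v f))
  rw [sum_congr rfl fun v f => (k v f).2.1, ← card_eq_sum_ones]
  by_contra n
  obtain ⟨x, y, z, p, q, r, xy, xz, yz⟩ := two_lt_card_iff.1 (not_le.1 n)
  obtain ⟨c', B⟩ := M c (kb (k x p).2.2).1
  have by' := (kb (k y q).2.2).2 c' B
  have bz := (kb (k z r).2.2).2 c' B
  obtain ⟨x', -, jx⟩ := B.two (e x p).1 ((kb (k x p).2.2).2 c' B)
  refine red x (k x p).1 fun v _ m => by_contra fun g => ?_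
  push Not at g
  have bv := ((jx v).1 (E.sy m)).1
  exact g z (k z r).1 xz.symm ((B.opp bv by' (g y (k y q).1 xy.symm) z).2 ⟨bz, yz.symm⟩)

theorem eqd_of (E : RS N) (M : ML N) (L : L3 N) : ∃ w t, Eqd N w t := by
  classical
  let e := (Fintype.equivFin V).symm
  set b := 2 * Fintype.card V + 3
  refine ⟨fun v => ∑ i, (if Cen N (e i) then mm N (e i) v else 0) * b ^ i.1,
    ∑ i, (if Cen N (e i) then 2 else 0) * b ^ i.1, E, fun v => ?_, fun D => ?_⟩
  · obtain ⟨z, i, j⟩ := cen_ex N v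
    have := mm_pos (E.sy (j z (E.rf z)))
    exact sum_pos' (fun _ _ => Nat.zero_le _) ⟨e.symm z, mem_univ _, by simp only [Equiv.apply_symm_apply, i]; positivity⟩
  rw [mds_iff E M L, sum_comm]
  simp only [← sum_mul, sum_ite_irrel, sum_const_zero]
  refine ⟨fun h => sum_congr rfl fun i _ => by split_ifs with c; rw [h _ c]; rfl, fun h c hc => ?_⟩
  have := finFunctionFinEquiv.injective (a₁ := fun i => (⟨if Cen N (e i) then ∑ v ∈ D, mm N (e i) v else 0, by
    have : ∑ v ∈ D, mm N (e i) v ≤ #D * 2 := sum_le_card_nsmul D (mm N (e i)) 2 fun v _ => by unfold mm; split_ifs <;> omega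
    have := card_le_univ D
    split_ifs <;> omega⟩ : Fin b))
    (a₂ := fun i => ⟨if Cen N (e i) then 2 else 0, by split_ifs <;> omega⟩) (Fin.ext (by simpa using h))
  simpa [hc] using congrFun this (e.symm c)

theorem equi_iff (G : SimpleGraph V) (h : ∀ x y, N x y ↔ x = y ∨ G.Adj x y) : Equi G ↔ Nonempty V ∧ ML N ∧ L3 N := by
  have E : RS N := ⟨by simp [h], fun e => (h _ _).2 (((h _ _).1 e).imp .symm .symm)⟩
  have d : IsDom G = Dom N := by
    ext D; simp only [IsDom, Dom, h, and_or_left, exists_or, exists_eq_right']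
  have m : ∀ D, Minimal (Dom N) D ↔ Mds N D := fun D => ⟨fun k => ⟨k.1, fun x e f => notMem_erase x D
    (k.2 f (erase_subset _ _) e)⟩, fun k => ⟨k.1, fun X i j x e => by_contra fun f => k.2 x e fun v =>
      (i v).imp fun y g => ⟨mem_erase.2 ⟨fun r => f (r ▸ g.1), j g.1⟩, g.2⟩⟩⟩
  simp only [Equi, d, m]
  constructor
  · rintro ⟨t, p, w, q, r⟩
    have E : Eqd N w t := ⟨E, q, r⟩
    refine ⟨by_contra fun n => ?_, E.ml, E.l3⟩
    have := (r ∅).1 ⟨fun v => (n ⟨v⟩).elim, by simp⟩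
    simp at this; omega
  · rintro ⟨⟨v⟩, M, L⟩
    obtain ⟨w, t, F⟩ := eqd_of E M L
    refine ⟨t, Nat.pos_of_ne_zero fun e => ?_, w, F.pos, F.eq⟩
    simpa using ((F.eq ∅).2 (by simp [e])).1 v

end Pool.Agent.H.MP_e5edb0_lc
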