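import Pool.Agent.Lib.lead.CXGraph

namespace Pool.Agent.H.MP_e5edb0_lc

/-- `S` is dominating -/
def IsDom {V : Type} (G : SimpleGraph V) (S : Finset V) : Prop := ∀ v, v ∈ S ∨ ∃ u ∈ S, G.Adj v u

/-- equidominating graphs -/
def Equi {V : Type} (G : SimpleGraph V) : Prop :=
  ∃ t : ℕ, 0 < t ∧ ∃ w : V → ℕ, (∀ v, 0 < w v) ∧ ∀ D : Finset V, Minimal (IsDom G) D ↔ ∑ v ∈ D, w v = t

end Pool.Agent.H.MP_e5edb0_lc
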