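import Pool.Agent.H.MP_e5edb0_lc.D
import Pool.Agent.Lib.lead.CXGraphRed

namespace Pool.Agent.H.MP_e5edb0_lc

open Pool.Agent.Lib.CX

def nb (a : Gr) (x y : ℕ) : Bool := decide (x = y ∨ a.adjB x y)
def sub (a : Gr) (x y : ℕ) : Bool := decide (∀ z < a.n, nb a x z → nb a y z)
def cen (a : Gr) (c : ℕ) : Bool := decide (∀ x < a.n, sub a x c → sub a c x)
def lam (a : Gr) (c : ℕ) : Bool := decide (cen a c ∧ ∃ x < a.n, ∃ y < a.n, nb a c x ∧ nb a c y ∧ ¬ nb a x y)
def ib (a : Gr) (c d x : ℕ) : Bool := decide (nb a c x ∨ x = d)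
set_option synthInstance.maxSize 2000 in
def blk (a : Gr) (c d : ℕ) : Bool := decide (¬ nb a c d ∧ ∀ x < a.n, ib a c d x →
  (∀ y < a.n, ib a c d y → nb a x y) ∨ ∃ z < a.n, ib a c d z ∧ ∀ y < a.n, nb a x y ↔ ib a c d y ∧ y ≠ z)
def cs (a : Gr) (x y : ℕ) : Bool := decide (∀ z < a.n, cen a z → nb a z x → nb a z y)

variable {α : Type} [Enc α] {a : α → Gr} {x y z : α → ℕ}

@[fun_prop] theorem PT.nb (ha : PT a) (hx : PT x) (hy : PT y) : PT fun i => nb (a i) (x i) (y i) := by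
  unfold MP_e5edb0_lc.nb; fun_prop
@[fun_prop] theorem PT.sub (ha : PT a) (hx : PT x) (hy : PT y) : PT fun i => sub (a i) (x i) (y i) := by
  unfold MP_e5edb0_lc.sub; fun_prop
@[fun_prop] theorem PT.cen (ha : PT a) (hx : PT x) : PT fun i => cen (a i) (x i) := by
  unfold MP_e5edb0_lc.cen; fun_prop
@[fun_prop] theorem PT.lam (ha : PT a) (hx : PT x) : PT fun i => lam (a i) (x i) := by
  unfold MP_e5edb0_lc.lam; fun_prop
@[fun_prop] theorem PT.ib (ha : PT a) (hx : PT x) (hy : PT y) (hz : PT z) : PT fun i => ib (a i) (x i) (y i) (z i) := by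
  unfold MP_e5edb0_lc.ib; fun_prop
set_option synthInstance.maxSize 2000 in
@[fun_prop] theorem PT.blk (ha : PT a) (hx : PT x) (hy : PT y) : PT fun i => blk (a i) (x i) (y i) := by
  unfold MP_e5edb0_lc.blk; fun_prop
@[fun_prop] theorem PT.cs (ha : PT a) (hx : PT x) (hy : PT y) : PT fun i => cs (a i) (x i) (y i) := by
  unfold MP_e5edb0_lc.cs; fun_prop

set_option synthInstance.maxSize 2000 in
theorem inP : InP fun a : Gr => Equi a.G := by
  refine (InP.of_decide (A := fun a : Gr => 0 < a.n ∧ (∀ c < a.n, lam a c → ∃ d < a.n, blk a c d) ∧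
    ∀ x < a.n, ∀ y < a.n, ∀ c < a.n, cen a c → nb a c x → nb a c y → ¬ lam a x → ¬ lam a y → cs a x y ∨ cs a y x)
    (i := fun _ => inferInstance) (by fun_prop)).of_iff fun a => ?_
  rw [equi_iff (N := fun x y => nb a x.1 y.1 = true) a.G fun x y => by simp [nb, Gr.adjB_iff, Fin.ext_iff]]
  simp only [ML, L3, Lam, Cen, Sub, Blk, lam, cen, sub, blk, ib, cs, decide_eq_true_eq, Fin.forall_iff, Fin.exists_iff,
    Fin.ext_iff, Ne, exists_prop, Fin.pos_iff_nonempty]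

end Pool.Agent.H.MP_e5edb0_lc
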